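import Pool.Agent.H82.PRP.Stmts

/-!
# The group algebra modulo powers of the augmentation ideal is finite dimensional (module FDIM)
-/

set_option autoImplicit false

namespace Pool.Agent.H82.PRP

open Filter Topology

namespace FDIM

/-- a finitely generated complement of the powers of the augmentation ideal -/
theorem exists_compl (hAUGB : AUGBStmt) (hGENL : GENLStmt) (p : ℕ) [Fact p.Prime] (P : Type)
    [Group P] (k : ℕ) (s : Fin k → P) (hs : Subgroup.closure (Set.range s) = ⊤) (n : ℕ) :
    ∃ V : Submodule (ZMod p) (MonoidAlgebra (ZMod p) P), V.FG ∧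
      V ⊔ (augI p P) ^ (n + 1) = ⊤ := by
  obtain ⟨_, hA2, _, _, _⟩ := hAUGB p P
  obtain ⟨hG1, _⟩ := hGENL p P k s hs
  induction n with
  | zero =>
    refine ⟨Submodule.span (ZMod p) {1}, Submodule.fg_span (Set.finite_singleton _), ?_⟩
    rw [eq_top_iff]
    intro f _
    obtain ⟨c, hc⟩ := hA2 f
    rw [Submodule.mem_sup]
    refine ⟨algebraMap (ZMod p) _ c, ?_, f - algebraMap (ZMod p) _ c, ?_, by abel⟩
    · rw [Algebra.algebraMap_eq_smul_one]
      exact Submodule.smul_mem _ _ (Submodule.mem_span_singleton_self _)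
    · rw [zero_add, pow_one]
      exact hc
  | succ n ih =>
    obtain ⟨V, hV, hVt⟩ := ih
    refine ⟨Submodule.span (ZMod p) {1} ⊔ ⨆ j : Fin k,
      V.map (LinearMap.mulRight (ZMod p) (MonoidAlgebra.of (ZMod p) P (s j) - 1)), ?_, ?_⟩
    · exact (Submodule.fg_span (Set.finite_singleton _)).sup
        (Submodule.fg_iSup _ fun j => hV.map _)
    · rw [eq_top_iff]
      intro f _
      obtain ⟨c, hc⟩ := hA2 f
      obtain ⟨d, hd⟩ := hG1 _ hc
      have hdec : ∀ j, ∃ v ∈ V, ∃ w ∈ (augI p P) ^ (n + 1), v + w = d j := by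
        intro j
        have h1 : d j ∈ V ⊔ (augI p P) ^ (n + 1) := by
          rw [hVt]; exact Submodule.mem_top
        exact Submodule.mem_sup.mp h1
      choose v hv w hw hvw using hdec
      have hf : f = (algebraMap (ZMod p) _ c +
          ∑ j, v j * (MonoidAlgebra.of (ZMod p) P (s j) - 1)) +
          ∑ j, w j * (MonoidAlgebra.of (ZMod p) P (s j) - 1) := by
        rw [add_assoc, ← Finset.sum_add_distrib]
        have h2 : ∑ j, (v j * (MonoidAlgebra.of (ZMod p) P (s j) - 1) +
            w j * (MonoidAlgebra.of (ZMod p) P (s j) - 1)) =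
            ∑ j, d j * (MonoidAlgebra.of (ZMod p) P (s j) - 1) := by
          refine Finset.sum_congr rfl fun j _ => ?_
          rw [← add_mul, hvw j]
        rw [h2, ← hd]
        abel
      rw [hf]
      refine Submodule.add_mem _ ?_ ?_
      · refine (le_sup_left : _ ≤ _ ⊔ (augI p P) ^ (n + 1 + 1)) ?_
        refine Submodule.add_mem _ ?_ ?_
        · refine (le_sup_left : Submodule.span (ZMod p)
            {(1 : MonoidAlgebra (ZMod p) P)} ≤ _) ?_
          rw [Algebra.algebraMap_eq_smul_one]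
          exact Submodule.smul_mem _ _ (Submodule.mem_span_singleton_self _)
        · refine Submodule.sum_mem _ fun j _ => ?_
          refine (le_sup_right : _ ≤ Submodule.span (ZMod p)
            {(1 : MonoidAlgebra (ZMod p) P)} ⊔ _) ?_
          refine Submodule.mem_iSup_of_mem j ?_
          exact Submodule.mem_map.mpr ⟨v j, hv j, rfl⟩
      · refine Submodule.sum_mem _ fun j _ => ?_
        refine (le_sup_right : (augI p P) ^ (n + 1 + 1) ≤ _) ?_
        rw [pow_succ]
        refine Submodule.mul_mem_mul (hw j) ?_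
        obtain ⟨hA1, _⟩ := hAUGB p P
        exact hA1 (s j)

end FDIM

theorem fdim_thm (hAUGB : AUGBStmt) (hGENL : GENLStmt) : FDIMStmt := by
  intro p _ P _ k s hs n hn
  obtain ⟨m, rfl⟩ : ∃ m, n = m + 1 := ⟨n - 1, by omega⟩
  obtain ⟨V, hV, hVt⟩ := FDIM.exists_compl hAUGB hGENL p P k s hs m
  have hVf : Module.Finite (ZMod p) V := Module.Finite.iff_fg.mpr hV
  refine Module.Finite.of_surjective
    (((augI p P) ^ (m + 1)).mkQ.comp V.subtype) ?_
  intro x
  obtain ⟨f, rfl⟩ := Submodule.mkQ_surjective _ x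
  have h1 : f ∈ V ⊔ (augI p P) ^ (m + 1) := by
    rw [hVt]; exact Submodule.mem_top
  obtain ⟨v, hv, w, hw, rfl⟩ := Submodule.mem_sup.mp h1
  refine ⟨⟨v, hv⟩, ?_⟩
  rw [LinearMap.comp_apply, map_add]
  have h2 : ((augI p P) ^ (m + 1)).mkQ w = 0 := by
    rw [Submodule.mkQ_apply, Submodule.Quotient.mk_eq_zero]
    exact hw
  rw [h2, add_zero]
  rfl

end Pool.Agent.H82.PRP
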