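import Pool.Agent.H82.PRP.Stmts

/-!
# Finiteness of the lamplighter groups (module LFIN)
-/

set_option autoImplicit false

namespace Pool.Agent.H82.PRP

open Filter Topology

namespace LFIN

/-- coordinates on the lamplighter group -/
def lampEquiv (p m : ℕ) : Lamp p m ≃ (ZMod (p ^ m) → ZMod p) × ZMod (p ^ m) where
  toFun a := (a.lamp, a.pos)
  invFun b := ⟨b.1, b.2⟩
  left_inv _ := rfl
  right_inv _ := rfl

/-- coordinates on the extension -/
def e1Equiv (p : ℕ) (Q : Type) [Group Q] : E1 p Q ≃ MonoidAlgebra (ZMod p) Q × Q where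
  toFun a := (a.u, a.q)
  invFun b := ⟨b.1, b.2⟩
  left_inv _ := rfl
  right_inv _ := rfl

end LFIN

theorem lfin_thm : LFINStmt := by
  intro p hp m
  have hp0 : NeZero p := ⟨hp.out.ne_zero⟩
  have : NeZero (p ^ m) := ⟨pow_ne_zero m hp.out.ne_zero⟩
  have h1 : Finite (Lamp p m) := Finite.of_equiv _ (LFIN.lampEquiv p m).symm
  have hc1 : Nat.card (Lamp p m) = p ^ (p ^ m + m) := by
    rw [Nat.card_congr (LFIN.lampEquiv p m), Nat.card_prod, Nat.card_fun, Nat.card_zmod,
      Nat.card_zmod, pow_add]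
  have h2 : IsPGroup p (Lamp p m) := IsPGroup.of_card hc1
  have := h1
  have e2 : MonoidAlgebra (ZMod p) (Lamp p m) ≃ (Lamp p m → ZMod p) :=
    MonoidAlgebra.coeffEquiv.trans Finsupp.equivFunOnFinite
  have h3 : Finite (MonoidAlgebra (ZMod p) (Lamp p m)) := Finite.of_equiv _ e2.symm
  have := h3
  have h4 : Finite (E1 p (Lamp p m)) := Finite.of_equiv _ (LFIN.e1Equiv p (Lamp p m)).symm
  have hc2 : Nat.card (E1 p (Lamp p m)) = p ^ (Nat.card (Lamp p m) + (p ^ m + m)) := by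
    rw [Nat.card_congr (LFIN.e1Equiv p (Lamp p m)), Nat.card_prod, Nat.card_congr e2, Nat.card_fun,
      Nat.card_zmod, pow_add, ← hc1]
  exact ⟨⟨h1, h2⟩, h4, IsPGroup.of_card hc2⟩

end Pool.Agent.H82.PRP
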